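import Pool.Agent.Lib.MP_2fc053_co.Lengths

namespace Pool.Agent.Results.MP_2fc053_co.Lengths
open Pool.Agent.Lib.MP_2fc053_co.Lengths

theorem result (m : ℕ) (hm : 1 ≤ m) :
    ∃ (n : ℕ) (G : SimpleGraph (Fin n)), IsLenVI m G ∧ G.chromaticNumber = (2 * m + 2 : ℕ) :=
  lower hm

end Pool.Agent.Results.MP_2fc053_co.Lengths
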