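import Pool.Agent.Lib.MP_2fc053_co.AllM

namespace Pool.Agent.Results.MP_2fc053_co.LengthsUpper
open Pool.Agent.Lib.MP_2fc053_co.Lengths

theorem result (m n : ℕ) (G : SimpleGraph (Fin n)) (h : IsLenVI m G) :
    G.chromaticNumber ≤ (3 * m + m % 2 : ℕ) :=
  (Pool.Agent.Lib.MP_2fc053_co.AllM.upper m G h).chromaticNumber_le

end Pool.Agent.Results.MP_2fc053_co.LengthsUpper
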