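import Pool.Agent.Lib.MP_2fc053_co.Two

namespace Pool.Agent.Results.MP_2fc053_co.TwoLengths
open Pool.Agent.Lib.MP_2fc053_co.Lengths

theorem result :
    IsGreatest {k : ℕ∞ | ∃ (n : ℕ) (G : SimpleGraph (Fin n)),
      IsLenVI 2 G ∧ G.chromaticNumber = k} 6 := by
  constructor
  · obtain ⟨n, G, h1, h2⟩ := lower (m := 2) (by norm_num)
    exact ⟨n, G, h1, by simpa using h2⟩
  · rintro k ⟨n, G, h1, rfl⟩
    simpa using Pool.Agent.Lib.MP_2fc053_co.Two.upper2 G h1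

end Pool.Agent.Results.MP_2fc053_co.TwoLengths
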