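import Mathlib
import Pool.Agent.Lib.MP_2fc053_co.Unit

namespace Pool.Agent.Results.MP_2fc053_co.UnitFour

/-- `G` is a unit veto interval graph: vertex `a` gets the veto interval `(l a, v a, r a)`,
all of the same length, distinct vertices get distinct veto intervals. -/
def IsUnitVI {V : Type} (G : SimpleGraph V) : Prop :=
  ∃ (l v r : V → ℝ) (c : ℝ),
    (∀ a, l a < v a ∧ v a < r a ∧ r a - l a = c) ∧
    Function.Injective (fun a => (l a, v a, r a)) ∧
    ∀ a b, a ≠ b → (G.Adj a b ↔
      (v a < l b ∧ l b < r a ∧ r a < v b) ∨ (v b < l a ∧ l a < r b ∧ r b < v a))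

theorem result :
    IsGreatest {k : ℕ∞ | ∃ (n : ℕ) (G : SimpleGraph (Fin n)),
      IsUnitVI G ∧ G.chromaticNumber = k} 4 :=
  Pool.Agent.Lib.MP_2fc053_co.main

end Pool.Agent.Results.MP_2fc053_co.UnitFour
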